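import Mathlib
import Pool.Agent.Helper426.KP.FinalC

set_option autoImplicit false

namespace Pool.Agent.Results.MP_9067ea_co.LowerBound

/-- `g n k`: the least length of a word over the `n`-letter alphabet `Fin n` that contains every
`k`-permutation (every list of `k` distinct letters) as a subsequence. -/
noncomputable def g (n k : ℕ) : ℕ :=
  sInf {L : ℕ | ∃ w : List (Fin n), w.length = L ∧
    ∀ p : List (Fin n), p.Nodup → p.length = k → List.Sublist p w}

/-- For all `1 ≤ k ≤ n`:
`g(n,k) ≥ k n - max ((k+1) (⌈log₂ (k+1)⌉ - 1), k (k-1) / 2 + 4 (k+1) - n)`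
(`Nat.clog 2 m = ⌈log₂ m⌉`; the last subtraction is truncated at `0`). -/
theorem result (n k : ℕ) (_hk : 1 ≤ k) (hkn : k ≤ n) :
    k * n ≤ g n k +
      max ((k + 1) * (Nat.clog 2 (k + 1) - 1)) (k * (k - 1) / 2 + 4 * (k + 1) - n) := by
  have hne : {L : ℕ | ∃ w : List (Fin n), w.length = L ∧
      ∀ p : List (Fin n), p.Nodup → p.length = k → List.Sublist p w}.Nonempty := by
    obtain ⟨w, hw⟩ := Pool.Agent.H426.KP.word_exists n k
    exact ⟨w.length, w, rfl, fun p _ hp => hw p hp⟩
  obtain ⟨w, hw, hu⟩ := Nat.sInf_mem hne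
  have h := Pool.Agent.H426.KP.bound_all k (Finset.univ : Finset (Fin n)) w
    (by simpa using hkn) (fun p hp _ hl => hu p hp hl)
  rw [Pool.Agent.H426.KP.cnt_univ, hw] at h
  simpa [g] using h

end Pool.Agent.Results.MP_9067ea_co.LowerBound
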