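import Mathlib
import Pool.Agent.Helper426.KP.FinalC
import Pool.Agent.Helper426.KP.Mono

set_option autoImplicit false

namespace Pool.Agent.Results.MP_9067ea_co.MonotoneDeficit

/-- `g n k`: the least length of a word over the `n`-letter alphabet `Fin n` that contains every
`k`-permutation (every list of `k` distinct letters) as a subsequence. -/
noncomputable def g (n k : ℕ) : ℕ :=
  sInf {L : ℕ | ∃ w : List (Fin n), w.length = L ∧
    ∀ p : List (Fin n), p.Nodup → p.length = k → List.Sublist p w}

/-- For all `k ≤ m ≤ n`: `g(n,k) ≥ g(m,k) + k (n - m)`; with `m = k`,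
`g(n,k) ≥ f(k) + k (n - k)` for the least length `f(k) = g(k,k)` of a word containing all
permutations of `k` letters. -/
theorem result (k m n : ℕ) (hkm : k ≤ m) (hmn : m ≤ n) :
    g m k + k * (n - m) ≤ g n k := by
  have hstep : ∀ j : ℕ, k ≤ j → g j k + k ≤ g (j + 1) k := by
    intro j hj
    have hne : {L : ℕ | ∃ w : List (Fin (j + 1)), w.length = L ∧
        ∀ p : List (Fin (j + 1)), p.Nodup → p.length = k → List.Sublist p w}.Nonempty := by
      obtain ⟨w, hw⟩ := Pool.Agent.H426.KP.word_exists (j + 1) k
      exact ⟨w.length, w, rfl, fun p _ hp => hw p hp⟩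
    obtain ⟨w, hw, hu⟩ := Nat.sInf_mem hne
    obtain ⟨w', hw', hu'⟩ := Pool.Agent.H426.KP.remove_letter hj w hu
    have h1 : g j k ≤ w'.length := Nat.sInf_le ⟨w', rfl, hu'⟩
    have h2 : g (j + 1) k = w.length := hw.symm
    omega
  induction n, hmn using Nat.le_induction with
  | base => simp
  | succ n hmn ih =>
    have h1 := hstep n (hkm.trans hmn)
    have h2 : k * (n + 1 - m) = k * (n - m) + k := by
      rw [Nat.sub_add_comm hmn]; ring
    omega

end Pool.Agent.Results.MP_9067ea_co.MonotoneDeficit
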