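import Mathlib
import Pool.Agent.Helper426.KP.FinalC
import Pool.Agent.Helper426.KP.Mono

set_option autoImplicit false

namespace Pool.Agent.Results.MP_9067ea_co.TailExact

/-- `g n k`: the least length of a word over the `n`-letter alphabet `Fin n` that contains every
`k`-permutation (every list of `k` distinct letters) as a subsequence. -/
noncomputable def g (n k : ℕ) : ℕ :=
  sInf {L : ℕ | ∃ w : List (Fin n), w.length = L ∧
    ∀ p : List (Fin n), p.Nodup → p.length = k → List.Sublist p w}

lemma attained (n k : ℕ) : ∃ w : List (Fin n), w.length = g n k ∧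
    ∀ p : List (Fin n), p.Nodup → p.length = k → List.Sublist p w := by
  have hne : {L : ℕ | ∃ w : List (Fin n), w.length = L ∧
      ∀ p : List (Fin n), p.Nodup → p.length = k → List.Sublist p w}.Nonempty := by
    obtain ⟨w, hw⟩ := Pool.Agent.H426.KP.word_exists n k
    exact ⟨w.length, w, rfl, fun p _ hp => hw p hp⟩
  exact Nat.sInf_mem hne

lemma trivial_word (n k : ℕ) : ∃ w : List (Fin n), w.length = k * n ∧
    ∀ p : List (Fin n), p.length = k → List.Sublist p w := by
  induction k with
  | zero => exact ⟨[], by simp, fun p hp => by rw [List.length_eq_zero_iff.1 hp]⟩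
  | succ k ih =>
    obtain ⟨w, hwl, hw⟩ := ih
    refine ⟨List.finRange n ++ w, ?_, ?_⟩
    · rw [List.length_append, hwl, List.length_finRange]; ring
    · intro p hp
      cases p with
      | nil => simp at hp
      | cons x p =>
        have h1 : List.Sublist [x] (List.finRange n) := List.singleton_sublist.2 (by simp)
        exact h1.append (hw p (by simpa using hp))

lemma g_le (n k : ℕ) : g n k ≤ k * n := by
  obtain ⟨w, hwl, hw⟩ := trivial_word n k
  exact Nat.sInf_le ⟨w, hwl, fun p _ hp => hw p hp⟩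

lemma g_step {n k : ℕ} (h : k ≤ n) : g n k + k ≤ g (n + 1) k := by
  obtain ⟨w, hw, hu⟩ := attained (n + 1) k
  obtain ⟨w', hw', hu'⟩ := Pool.Agent.H426.KP.remove_letter h w hu
  have h1 : g n k ≤ w'.length := Nat.sInf_le ⟨w', rfl, hu'⟩
  omega

lemma g_lower {n k : ℕ} (hkn : k ≤ n) : k * n ≤ g n k +
    max ((k + 1) * (Nat.clog 2 (k + 1) - 1)) (k * (k - 1) / 2 + 4 * (k + 1) - n) := by
  obtain ⟨w, hw, hu⟩ := attained n k
  have h := Pool.Agent.H426.KP.bound_all k (Finset.univ : Finset (Fin n)) w
    (by simpa using hkn) (fun p hp _ hl => hu p hp hl)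
  rw [Pool.Agent.H426.KP.cnt_univ, hw] at h
  simpa using h

/-- For every `k` there is a constant `d = d_k ≤ (k+1) (⌈log₂ (k+1)⌉ - 1)` such that
`g(n,k) = k n - d` exactly, for all sufficiently large `n`. -/
theorem result (k : ℕ) : ∃ d N : ℕ, d ≤ (k + 1) * (Nat.clog 2 (k + 1) - 1) ∧
    ∀ n : ℕ, N ≤ n → g n k + d = k * n := by
  classical
  have hex : ∃ d : ℕ, ∃ n : ℕ, k ≤ n ∧ g n k + d = k * n :=
    ⟨k * k - g k k, k, le_rfl, by have := g_le k k; omega⟩
  obtain ⟨N, hkN, hN⟩ := Nat.find_spec hex
  set d := Nat.find hex with hd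
  have hmin : ∀ n : ℕ, k ≤ n → d ≤ k * n - g n k := fun n hn =>
    Nat.find_min' hex ⟨n, hn, by have := g_le n k; omega⟩
  have hall : ∀ n : ℕ, N ≤ n → g n k + d = k * n := by
    intro n hn
    induction n, hn using Nat.le_induction with
    | base => exact hN
    | succ n hn ih =>
      have h1 := g_step (hkN.trans hn)
      have h2 := hmin (n + 1) ((hkN.trans hn).trans (Nat.le_succ n))
      have h3 := g_le (n + 1) k
      have h4 : k * (n + 1) = k * n + k := by ring
      omega
  refine ⟨d, N, ?_, hall⟩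
  set M := N + k * (k - 1) / 2 + 4 * (k + 1) with hM
  have h1 := g_lower (n := M) (k := k) (by omega)
  have h2 : k * (k - 1) / 2 + 4 * (k + 1) - M = 0 := by omega
  rw [h2, Nat.max_zero] at h1
  have h3 := hall M (by omega)
  omega

end Pool.Agent.Results.MP_9067ea_co.TailExact
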